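import Pool.Agent.TH541.TN.QF

/-! Blocks of quantifiers. -/

set_option autoImplicit false

open FirstOrder FirstOrder.Language
open Pool.Agent.Helper227.EN (LA AF Compat Beta beta_exists beta_unique std_below)
open Pool.Agent.TH752.AR
open Pool.Agent.TH748.MU

namespace Pool.Agent.TH541.TN

/-- code of a quantified formula -/
def qc : Bool → ℕ → ℕ
  | true, w => pr 8 (pr (pr 9 (pr 8 (pr w (pr 5 0)))) (pr 5 0))
  | false, w => pr 9 w

theorem lt_qc (b : Bool) (w : ℕ) : w < qc b w := by
  cases b with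
  | false => exact lt_pr (by norm_num)
  | true =>
    show w < pr 8 (pr (pr 9 (pr 8 (pr w (pr 5 0)))) (pr 5 0))
    have h1 : w ≤ pr w (pr 5 0) := le_pr_left _ _
    have h2 : pr w (pr 5 0) < pr 8 (pr w (pr 5 0)) := lt_pr (by norm_num)
    have h3 : pr 8 (pr w (pr 5 0)) < pr 9 (pr 8 (pr w (pr 5 0))) := lt_pr (by norm_num)
    have h4 : pr 9 (pr 8 (pr w (pr 5 0))) ≤ pr (pr 9 (pr 8 (pr w (pr 5 0)))) (pr 5 0) := le_pr_left _ _
    have h5 : pr (pr 9 (pr 8 (pr w (pr 5 0)))) (pr 5 0) <
        pr 8 (pr (pr 9 (pr 8 (pr w (pr 5 0)))) (pr 5 0)) := lt_pr (by norm_num)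
    omega

theorem iter_qc (b : Bool) (m z : ℕ) : z + m ≤ (qc b)^[m] z := by
  induction m with
  | zero => exact le_rfl
  | succ m ih =>
    rw [Function.iterate_succ_apply']
    have := lt_qc b ((qc b)^[m] z)
    omega

/-- the quantified formula -/
def qf (b : Bool) {k : ℕ} (φ : LA.BoundedFormula Empty (k + 1)) : LA.BoundedFormula Empty k :=
  match b with
  | true => φ.ex
  | false => φ.all

theorem gf_qf (b : Bool) {k : ℕ} (φ : LA.BoundedFormula Empty (k + 1)) : gf (qf b φ) = qc b (gf φ) := by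
  cases b <;> rfl

theorem hier_qf {b : Bool} {n k : ℕ} {φ : LA.BoundedFormula Empty (k + 1)} (h : Hier b (n + 1) φ) :
    Hier b (n + 1) (qf b φ) := by
  cases b with
  | true => exact Hier.ex h
  | false => exact Hier.all h

section sem

variable {M : Type} [LA.Structure M]

/-- quantification over the sequences which agree with `s` below `k` -/
def Qt (b : Bool) (s : ℕ → M) (k : ℕ) (P : (ℕ → M) → Prop) : Prop :=
  match b with
  | true => ∃ s' : ℕ → M, (∀ i < k, s' i = s i) ∧ P s'
  | false => ∀ s' : ℕ → M, (∀ i < k, s' i = s i) → P s'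

omit [LA.Structure M] in
theorem Qt_congr {b : Bool} {s : ℕ → M} {k : ℕ} {P P' : (ℕ → M) → Prop} (h : ∀ s', P s' ↔ P' s') :
    Qt b s k P ↔ Qt b s k P' := by
  have : P = P' := funext fun s' => propext (h s')
  rw [this]

omit [LA.Structure M] in
theorem Qt_comp {b : Bool} {s : ℕ → M} {k l : ℕ} (hkl : k ≤ l) {P : (ℕ → M) → Prop} :
    Qt b s k (fun s' => Qt b s' l P) ↔ Qt b s k P := by
  cases b with
  | true =>
    constructor
    · rintro ⟨s', h1, s'', h2, h3⟩
      exact ⟨s'', fun i hi => (h2 i (by omega)).trans (h1 i hi), h3⟩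
    · rintro ⟨s', h1, h2⟩
      exact ⟨s', h1, s', fun _ _ => rfl, h2⟩
  | false =>
    constructor
    · intro h s' h1
      exact h s' h1 s' fun _ _ => rfl
    · intro h s' h1 s'' h2
      exact h s'' fun i hi => (h2 i (by omega)).trans (h1 i hi)

omit [LA.Structure M] in
theorem Qt_self {b : Bool} {s : ℕ → M} {k : ℕ} {P : (ℕ → M) → Prop}
    (hP : ∀ s', (∀ i < k, s' i = s i) → (P s' ↔ P s)) : Qt b s k P ↔ P s := by
  cases b with
  | true => exact ⟨fun ⟨s', h1, h2⟩ => (hP s' h1).1 h2, fun h => ⟨s, fun _ _ => rfl, h⟩⟩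
  | false => exact ⟨fun h => h s fun _ _ => rfl, fun h s' h1 => (hP s' h1).2 h⟩

theorem R_dep {s s' : ℕ → M} {k : ℕ} (h : ∀ i < k, s' i = s i) (φ : LA.BoundedFormula Empty k) :
    R s' φ ↔ R s φ := by
  unfold R
  have : (fun i : Fin k => s' i) = fun i : Fin k => s i := funext fun i => h i i.2
  rw [this]

omit [LA.Structure M] in
theorem snoc_eq {s s' : ℕ → M} {k : ℕ} (h : ∀ i < k, s' i = s i) :
    (Fin.snoc (fun i : Fin k => s i) (s' k) : Fin (k + 1) → M) = fun i : Fin (k + 1) => s' i := by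
  funext i
  refine Fin.lastCases ?_ (fun i => ?_) i
  · simp
  · simp [h i i.2]

theorem R_qf (b : Bool) (s : ℕ → M) {k : ℕ} (φ : LA.BoundedFormula Empty (k + 1)) :
    R s (qf b φ) ↔ Qt b s k (fun s' => R s' φ) := by
  have hex : ∀ x : M, ∃ s' : ℕ → M, (∀ i < k, s' i = s i) ∧ s' k = x := fun x =>
    ⟨fun i => if i < k then s i else x, fun i hi => if_pos hi, if_neg (lt_irrefl k)⟩
  cases b with
  | true =>
    show φ.ex.Realize _ _ ↔ ∃ s' : ℕ → M, (∀ i < k, s' i = s i) ∧ R s' φ
    rw [BoundedFormula.realize_ex]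
    constructor
    · rintro ⟨x, hx⟩
      obtain ⟨s', h1, h2⟩ := hex x
      refine ⟨s', h1, ?_⟩
      unfold R
      rw [← snoc_eq h1, h2]
      exact hx
    · rintro ⟨s', h1, h2⟩
      refine ⟨s' k, ?_⟩
      rw [snoc_eq h1]
      exact h2
  | false =>
    show φ.all.Realize _ _ ↔ ∀ s' : ℕ → M, (∀ i < k, s' i = s i) → R s' φ
    rw [BoundedFormula.realize_all]
    constructor
    · intro h s' h1
      have h2 := h (s' k)
      rw [snoc_eq h1] at h2
      exact h2
    · intro h x
      obtain ⟨s', h1, h2⟩ := hex x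
      have h3 := h s' h1
      unfold R at h3
      rw [← snoc_eq h1, h2] at h3
      exact h3

/-- removing the outer block of quantifiers -/
theorem blk_down {b : Bool} {m k : ℕ} {φ : LA.BoundedFormula Empty k} (h : Hier b m φ) :
    ∀ n, m = n + 1 → ∃ K, k ≤ K ∧ ∃ ψ : LA.BoundedFormula Empty K, Hier (!b) n ψ ∧
      gf φ = (qc b)^[K - k] (gf ψ) ∧ ∀ s : ℕ → M, (R s φ ↔ Qt b s k (fun s' => R s' ψ)) := by
  induction h with
  | @qf b n k φ h =>
    intro n _
    exact ⟨k, le_rfl, φ, Hier.qf h, by simp, fun s => (Qt_self fun s' hs' => R_dep hs' φ).symm⟩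
  | @next b n k φ h =>
    intro n' hn
    have : n = n' := by omega
    subst this
    exact ⟨k, le_rfl, φ, h, by simp, fun s => (Qt_self fun s' hs' => R_dep hs' φ).symm⟩
  | @ex n k φ h ih =>
    intro n' hn
    obtain ⟨K, hK, ψ, hψ, hg, hR⟩ := ih n' hn
    refine ⟨K, by omega, ψ, hψ, ?_, fun s => ?_⟩
    · have h1 : gf φ.ex = qc true (gf φ) := gf_qf true φ
      rw [h1, hg, ← Function.iterate_succ_apply' (qc true)]
      congr 2
      omega
    · have h1 : R s φ.ex ↔ Qt true s k (fun s' => R s' φ) := R_qf true s φ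
      rw [h1, Qt_congr hR, Qt_comp (Nat.le_succ k)]
  | @all n k φ h ih =>
    intro n' hn
    obtain ⟨K, hK, ψ, hψ, hg, hR⟩ := ih n' hn
    refine ⟨K, by omega, ψ, hψ, ?_, fun s => ?_⟩
    · have h1 : gf φ.all = qc false (gf φ) := gf_qf false φ
      rw [h1, hg, ← Function.iterate_succ_apply' (qc false)]
      congr 2
      omega
    · have h1 : R s φ.all ↔ Qt false s k (fun s' => R s' φ) := R_qf false s φ
      rw [h1, Qt_congr hR, Qt_comp (Nat.le_succ k)]

/-- adding a block of quantifiers -/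
theorem blk_up {b : Bool} {n : ℕ} (m : ℕ) : ∀ {k : ℕ} (ψ : LA.BoundedFormula Empty (k + m)),
    Hier b (n + 1) ψ → ∃ φ : LA.BoundedFormula Empty k, Hier b (n + 1) φ ∧
      gf φ = (qc b)^[m] (gf ψ) ∧ ∀ s : ℕ → M, (R s φ ↔ Qt b s k (fun s' => R s' ψ)) := by
  induction m with
  | zero =>
    intro k ψ hψ
    exact ⟨ψ, hψ, rfl, fun s => (Qt_self fun s' hs' => R_dep (k := k) hs' ψ).symm⟩
  | succ m ih =>
    intro k ψ hψ
    obtain ⟨φ, hφ, hg, hR⟩ := ih (qf b (k := k + m) ψ) (hier_qf hψ)
    refine ⟨φ, hφ, ?_, fun s => ?_⟩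
    · rw [hg, Function.iterate_succ_apply]
      congr 1
      exact gf_qf b (k := k + m) ψ
    · rw [hR, Qt_congr (fun s' => R_qf b s' (k := k + m) ψ), Qt_comp (Nat.le_add_right k m)]

end sem

section def_

variable {M : Type} [LA.Structure M] [CommSemiring M] [LinearOrder M]
    [IsStrictOrderedRing M] [CanonicallyOrderedAdd M]

/-- code of a quantified formula, in the model -/
def qcM : Bool → M → M
  | true, w => prN 8 (prN (prN 9 (prN 8 (prN w (prN 5 0)))) (prN 5 0))
  | false, w => prN 9 w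

omit [LA.Structure M] [LinearOrder M] [IsStrictOrderedRing M] [CanonicallyOrderedAdd M] in
theorem cast_qc (b : Bool) (w : ℕ) : ((qc b w : ℕ) : M) = qcM b (w : M) := by
  cases b with
  | true =>
    show ((pr 8 (pr (pr 9 (pr 8 (pr w (pr 5 0)))) (pr 5 0)) : ℕ) : M) =
      prN 8 (prN (prN 9 (prN 8 (prN (w : M) (prN 5 0)))) (prN 5 0))
    simp only [cast_pr, Nat.cast_ofNat, Nat.cast_zero]
  | false =>
    show ((pr 9 w : ℕ) : M) = prN 9 (w : M)
    simp only [cast_pr, Nat.cast_ofNat]

/-- iterated quantification -/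
def It (b : Bool) (k K z x : M) : Prop :=
  ∃ g h, bv g h k = x ∧ bv g h K = z ∧ ∀ i, k ≤ i → i < K → bv g h i = qcM b (bv g h (i + 1))

theorem It_iff (hA : Ari LA M) (b : Bool) {k K : ℕ} (hkK : k ≤ K) (z x : ℕ) :
    It b (k : M) (K : M) (z : M) (x : M) ↔ (qc b)^[K - k] z = x := by
  constructor
  · rintro ⟨g, h, h1, h2, h3⟩
    have key : ∀ j ≤ K - k, bv g h ((K - j : ℕ) : M) = (((qc b)^[j] z : ℕ) : M) := by
      intro j
      induction j with
      | zero => intro _; exact h2
      | succ j ih =>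
        intro hj
        have h4 := ih (by omega)
        have h5 := h3 ((K - (j + 1) : ℕ) : M) (by exact_mod_cast (by omega : k ≤ K - (j + 1)))
          (by exact_mod_cast (by omega : K - (j + 1) < K))
        have h6 : ((K - (j + 1) : ℕ) : M) + 1 = ((K - j : ℕ) : M) := by
          have h7 : K - (j + 1) + 1 = K - j := by omega
          rw [← h7]
          push_cast
          rfl
        rw [h5, h6, h4, Function.iterate_succ_apply', cast_qc]
    have h4 := key (K - k) le_rfl
    have h5 : K - (K - k) = k := by omega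
    rw [h5, h1] at h4
    exact (Nat.cast_injective h4).symm
  · intro hx
    obtain ⟨g, h, hgh⟩ := exists_bv hA (K + 1) (fun i => (((qc b)^[K - i] z : ℕ) : M))
    refine ⟨g, h, ?_, ?_, ?_⟩
    · rw [hgh k (by omega), hx]
    · rw [hgh K (by omega)]
      simp
    · intro i hi hi'
      obtain ⟨i', -, rfl⟩ : ∃ i' : ℕ, True ∧ i = (i' : M) := by
        have : i ≤ ((K : ℕ) : M) := hi'.le
        by_contra hcon
        push Not at hcon
        -- elements below a standard number are standard
        have hstd : ∀ n : ℕ, ∀ y : M, y ≤ (n : M) → ∃ m : ℕ, y = (m : M) := by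
          intro n
          induction n with
          | zero =>
            intro y hy
            refine ⟨0, ?_⟩
            rw [Nat.cast_zero] at hy ⊢
            exact le_antisymm hy zero_le
          | succ n ih =>
            intro y hy
            rcases hy.lt_or_eq with h1 | h1
            · rw [Nat.cast_succ] at h1
              exact ih y (hA.lt_succ.1 h1)
            · exact ⟨n + 1, h1⟩
        obtain ⟨m, hm⟩ := hstd K i this
        exact hcon m trivial hm
      have hi2 : k ≤ i' := by exact_mod_cast hi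
      have hi3 : i' < K := by exact_mod_cast hi'
      have h4 : ((i' : ℕ) : M) + 1 = ((i' + 1 : ℕ) : M) := by push_cast; rfl
      rw [h4, hgh i' (by omega), hgh (i' + 1) (by omega), ← cast_qc]
      congr 1
      have h5 : K - i' = (K - (i' + 1)) + 1 := by omega
      rw [h5, Function.iterate_succ_apply']

/-- the partial truth definitions -/
def W : ℕ → Bool → M → M → M → M → Prop
  | 0, _ => fun a c k x => Sat0 a c k x
  | n + 1, true => fun a c k x => ∃ K z, k ≤ K ∧ K ≤ k + x ∧ z ≤ x ∧ It true k K z x ∧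
      ∃ a' c', (∀ i, i < k → bv a' c' i = bv a c i) ∧ W n false a' c' K z
  | n + 1, false => fun a c k x => ∃ K z, k ≤ K ∧ K ≤ k + x ∧ z ≤ x ∧ It false k K z x ∧
      ∀ a' c', (∀ i, i < k → bv a' c' i = bv a c i) → W n true a' c' K z

theorem dfn_W (hA : Ari LA M) : ∀ (n : ℕ) (b : Bool),
    Dfn LA (Set.univ : Set M) fun v => W n b (v 0) (v 1) (v 2) (v 3)
  | 0, _ => dfn_Sat0 hA
  | n + 1, true => by
    have ih := dfn_W hA n false
    simp only [W, It, qcM]
    repeat' (first
      | exact DF.var _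
      | exact DF.par _
      | apply Ari.add hA
      | apply Ari.mul hA
      | apply df_pr hA
      | apply df_bv hA
      | apply Dfn.and
      | apply Dfn.or
      | apply Dfn.not
      | apply Dfn.iff
      | apply Dfn.eqT
      | apply Ari.lt hA
      | apply Ari.le hA
      | (apply ex'; beta_reduce)
      | (apply all'; beta_reduce)
      | apply Dfn.imp)
    exact rel4 (R := W n false) ih (DF.var _) (DF.var _) (DF.var _) (DF.var _)
  | n + 1, false => by
    have ih := dfn_W hA n true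
    simp only [W, It, qcM]
    repeat' (first
      | exact DF.var _
      | exact DF.par _
      | apply Ari.add hA
      | apply Ari.mul hA
      | apply df_pr hA
      | apply df_bv hA
      | apply Dfn.and
      | apply Dfn.or
      | apply Dfn.not
      | apply Dfn.iff
      | apply Dfn.eqT
      | apply Ari.lt hA
      | apply Ari.le hA
      | (apply ex'; beta_reduce)
      | (apply all'; beta_reduce)
      | apply Dfn.imp)
    exact rel4 (R := W n true) ih (DF.var _) (DF.var _) (DF.var _) (DF.var _)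

theorem hier_zero {b : Bool} {k : ℕ} {φ : LA.BoundedFormula Empty k} : Hier b 0 φ ↔ φ.IsQF := by
  constructor
  · intro h
    cases h with
    | qf h => exact h
  · exact Hier.qf

/-- correctness of the partial truth definitions -/
theorem W_iff (hc : Compat M) (hA : Ari LA M) : ∀ (n : ℕ) (b : Bool) (a c : M) (k x : ℕ),
    W n b a c (k : M) (x : M) ↔ ∃ φ : LA.BoundedFormula Empty k, Hier b n φ ∧ gf φ = x ∧
      R (fun i => bv a c (i : M)) φ
  | 0, b, a, c, k, x => by
    simp only [hier_zero]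
    exact Sat0_iff hc hA a c k x
  | n + 1, true, a, c, k, x => by
    have ih := W_iff hc hA n false
    show (∃ K z, (k : M) ≤ K ∧ K ≤ (k : M) + (x : M) ∧ z ≤ (x : M) ∧ It true (k : M) K z (x : M) ∧
      ∃ a' c', (∀ i, i < (k : M) → bv a' c' i = bv a c i) ∧ W n false a' c' K z) ↔ _
    constructor
    · rintro ⟨K, z, h1, h2, h3, h4, a', c', h5, h6⟩
      obtain ⟨K', -, rfl⟩ := std_below hc (k + x) K (by push_cast; exact h2)
      obtain ⟨z', -, rfl⟩ := std_below hc x z h3
      have hkK : k ≤ K' := by exact_mod_cast h1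
      rw [It_iff hA true hkK] at h4
      obtain ⟨ψ, hψ, hψ', hψ''⟩ := (ih a' c' K' z').1 h6
      obtain ⟨m, rfl⟩ := Nat.exists_eq_add_of_le hkK
      obtain ⟨φ, hφ, hg, hR⟩ := blk_up (M := M) (b := true) (n := n) m ψ (Hier.next hψ)
      refine ⟨φ, hφ, ?_, ?_⟩
      · rw [hg, hψ', ← h4, Nat.add_sub_cancel_left]
      · rw [hR]
        exact ⟨fun i => bv a' c' (i : M), fun i hi => h5 (i : M) (by exact_mod_cast hi), hψ''⟩
    · rintro ⟨φ, hφ, hφ', hφ''⟩
      obtain ⟨K, hK, ψ, hψ, hg, hR⟩ := blk_down (M := M) hφ n rfl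
      obtain ⟨s', hs', hs''⟩ := (hR _).1 hφ''
      obtain ⟨a', c', hac⟩ := exists_bv hA K s'
      have hle := iter_qc true (K - k) (gf ψ)
      rw [← hg, hφ'] at hle
      refine ⟨(K : M), (gf ψ : M), by exact_mod_cast hK, ?_, ?_, ?_, a', c', ?_, ?_⟩
      · exact_mod_cast (by omega : K ≤ k + x)
      · exact_mod_cast (by omega : gf ψ ≤ x)
      · rw [It_iff hA true hK, ← hg, hφ']
      · intro i hi
        obtain ⟨i', -, rfl⟩ := std_below hc k i hi.le
        have hi' : i' < k := by exact_mod_cast hi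
        rw [hac i' (by omega), hs' i' hi']
      · refine (ih a' c' K (gf ψ)).2 ⟨ψ, hψ, rfl, ?_⟩
        exact (R_dep (fun i hi => hac i hi) ψ).2 hs''
  | n + 1, false, a, c, k, x => by
    have ih := W_iff hc hA n true
    show (∃ K z, (k : M) ≤ K ∧ K ≤ (k : M) + (x : M) ∧ z ≤ (x : M) ∧ It false (k : M) K z (x : M) ∧
      ∀ a' c', (∀ i, i < (k : M) → bv a' c' i = bv a c i) → W n true a' c' K z) ↔ _
    constructor
    · rintro ⟨K, z, h1, h2, h3, h4, h5⟩
      obtain ⟨K', -, rfl⟩ := std_below hc (k + x) K (by push_cast; exact h2)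
      obtain ⟨z', -, rfl⟩ := std_below hc x z h3
      have hkK : k ≤ K' := by exact_mod_cast h1
      rw [It_iff hA false hkK] at h4
      obtain ⟨ψ, hψ, hψ', -⟩ := (ih a c K' z').1 (h5 a c fun _ _ => rfl)
      obtain ⟨m, rfl⟩ := Nat.exists_eq_add_of_le hkK
      obtain ⟨φ, hφ, hg, hR⟩ := blk_up (M := M) (b := false) (n := n) m ψ (Hier.next hψ)
      refine ⟨φ, hφ, ?_, ?_⟩
      · rw [hg, hψ', ← h4, Nat.add_sub_cancel_left]
      · rw [hR]
        intro s' hs'
        obtain ⟨a', c', hac⟩ := exists_bv hA (k + m) s'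
        have h6 : ∀ i, i < (k : M) → bv a' c' i = bv a c i := by
          intro i hi
          obtain ⟨i', -, rfl⟩ := std_below hc k i hi.le
          have hi' : i' < k := by exact_mod_cast hi
          rw [hac i' (by omega), hs' i' hi']
        obtain ⟨ψ', -, hψ1, hψ2⟩ := (ih a' c' (k + m) z').1 (h5 a' c' h6)
        have h7 : ψ' = ψ := gf_inj _ _ (hψ1.trans hψ'.symm)
        rw [h7] at hψ2
        exact (R_dep (fun i hi => hac i hi) ψ).1 hψ2
    · rintro ⟨φ, hφ, hφ', hφ''⟩
      obtain ⟨K, hK, ψ, hψ, hg, hR⟩ := blk_down (M := M) hφ n rfl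
      have hR' := (hR _).1 hφ''
      have hle := iter_qc false (K - k) (gf ψ)
      rw [← hg, hφ'] at hle
      refine ⟨(K : M), (gf ψ : M), by exact_mod_cast hK, ?_, ?_, ?_, ?_⟩
      · exact_mod_cast (by omega : K ≤ k + x)
      · exact_mod_cast (by omega : gf ψ ≤ x)
      · rw [It_iff hA false hK, ← hg, hφ']
      · intro a' c' hac
        refine (ih a' c' K (gf ψ)).2 ⟨ψ, hψ, rfl, ?_⟩
        exact hR' (fun i => bv a' c' (i : M)) fun i hi => hac (i : M) (by exact_mod_cast hi)

end def_

end Pool.Agent.TH541.TN
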