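import Pool.Agent.TH541.TN.Tool

/-! Truth of quantifier-free formulas. -/

set_option autoImplicit false

open FirstOrder FirstOrder.Language
open Pool.Agent.Helper227.EN (LA AF Compat Beta beta_exists beta_unique std_below)
open Pool.Agent.TH752.AR
open Pool.Agent.TH748.MU

namespace Pool.Agent.TH541.TN

variable {M : Type} [LA.Structure M] [CommSemiring M] [LinearOrder M]
    [IsStrictOrderedRing M] [CanonicallyOrderedAdd M]

/-- value of a term -/
def tv (s : ℕ → M) {k : ℕ} (t : LA.Term (Empty ⊕ Fin k)) : M :=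
  t.realize (Sum.elim (default : Empty → M) (fun i : Fin k => s i))

/-- truth of a formula -/
def R (s : ℕ → M) {k : ℕ} (φ : LA.BoundedFormula Empty k) : Prop :=
  φ.Realize (default : Empty → M) (fun i : Fin k => s i)

omit [CommSemiring M] [LinearOrder M] [IsStrictOrderedRing M] [CanonicallyOrderedAdd M] in
theorem tv_var (s : ℕ → M) {k : ℕ} (i : Fin k) : tv s (k := k) (Term.var (Sum.inr i)) = s i := rfl

omit [IsStrictOrderedRing M] [CanonicallyOrderedAdd M] in
theorem tv_zero (hc : Compat M) (s : ℕ → M) {k : ℕ} :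
    tv s (k := k) (Term.func (L := LA) (AF.zero : LA.Functions 0) Fin.elim0) = 0 := by
  unfold tv
  rw [Term.realize_func, ← hc.zero]
  congr 1
  exact Subsingleton.elim _ _

omit [IsStrictOrderedRing M] [CanonicallyOrderedAdd M] in
theorem tv_one (hc : Compat M) (s : ℕ → M) {k : ℕ} :
    tv s (k := k) (Term.func (L := LA) (AF.one : LA.Functions 0) Fin.elim0) = 1 := by
  unfold tv
  rw [Term.realize_func, ← hc.one]
  congr 1
  exact Subsingleton.elim _ _

omit [IsStrictOrderedRing M] [CanonicallyOrderedAdd M] in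
theorem tv_add (hc : Compat M) (s : ℕ → M) {k : ℕ} (t t' : LA.Term (Empty ⊕ Fin k)) :
    tv s (Term.func (L := LA) (AF.add : LA.Functions 2) ![t, t']) = tv s t + tv s t' := by
  unfold tv
  rw [Term.realize_func, ← hc.add]
  congr 1
  funext i
  fin_cases i <;> rfl

omit [IsStrictOrderedRing M] [CanonicallyOrderedAdd M] in
theorem tv_mul (hc : Compat M) (s : ℕ → M) {k : ℕ} (t t' : LA.Term (Empty ⊕ Fin k)) :
    tv s (Term.func (L := LA) (AF.mul : LA.Functions 2) ![t, t']) = tv s t * tv s t' := by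
  unfold tv
  rw [Term.realize_func, ← hc.mul]
  congr 1
  funext i
  fin_cases i <;> rfl

omit [IsStrictOrderedRing M] [CanonicallyOrderedAdd M] in
theorem R_lt (hc : Compat M) (s : ℕ → M) {k : ℕ} (t t' : LA.Term (Empty ⊕ Fin k)) :
    R s (ltF t t') ↔ tv s t < tv s t' := by
  unfold tv
  rw [← hc.lt]
  show Structure.RelMap (L := LA) Pool.Agent.Helper227.EN.AR.lt
    (fun i => Term.realize (Sum.elim default fun i : Fin k => s i) ((![t, t'] : Fin 2 → _) i)) ↔ _
  refine iff_of_eq (congrArg _ ?_)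
  funext i
  fin_cases i <;> rfl

omit [CommSemiring M] [LinearOrder M] [IsStrictOrderedRing M] [CanonicallyOrderedAdd M] in
theorem R_equal (s : ℕ → M) {k : ℕ} (t t' : LA.Term (Empty ⊕ Fin k)) :
    R s (BoundedFormula.equal t t') ↔ tv s t = tv s t' := Iff.rfl

omit [CommSemiring M] [LinearOrder M] [IsStrictOrderedRing M] [CanonicallyOrderedAdd M] in
theorem R_imp (s : ℕ → M) {k : ℕ} (f g : LA.BoundedFormula Empty k) :
    R s (f.imp g) ↔ (R s f → R s g) := Iff.rfl

/-- justification of the value of a term -/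
def TJ (a c k d e y v : M) : Prop :=
  (∃ i, i < k ∧ y = prN 0 i ∧ v = bv a c i) ∨ (y = prN 1 0 ∧ v = 0) ∨ (y = prN 2 0 ∧ v = 1) ∨
  (∃ s t u w, y = prN 3 (prN s t) ∧ bv d e s = u + 1 ∧ bv d e t = w + 1 ∧ v = u + w) ∨
  (∃ s t u w, y = prN 4 (prN s t) ∧ bv d e s = u + 1 ∧ bv d e t = w + 1 ∧ v = u * w)

/-- table of the values of terms -/
def TC (a c k d e x : M) : Prop := ∀ y v, y ≤ x → bv d e y = v + 1 → TJ a c k d e y v

/-- justification of the truth value of a formula -/
def FJ (d e g h y v : M) : Prop :=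
  (y = prN 5 0 ∧ ¬ v = 1) ∨
  (∃ s t u w, y = prN 6 (prN s t) ∧ bv d e s = u + 1 ∧ bv d e t = w + 1 ∧ (v = 1 ↔ u = w)) ∨
  (∃ s t u w, y = prN 7 (prN s t) ∧ bv d e s = u + 1 ∧ bv d e t = w + 1 ∧ (v = 1 ↔ u < w)) ∨
  (∃ s t u w, y = prN 8 (prN s t) ∧ bv g h s = u + 1 ∧ bv g h t = w + 1 ∧ (v = 1 ↔ (u = 1 → w = 1)))

/-- table of the truth values of quantifier-free formulas -/
def FC (d e g h x : M) : Prop := ∀ y v, y ≤ x → bv g h y = v + 1 → FJ d e g h y v

/-- truth of quantifier-free formulas -/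
def Sat0 (a c k x : M) : Prop :=
  ∃ d e g h, TC a c k d e x ∧ FC d e g h x ∧ bv g h x = 1 + 1

theorem dfn_Sat0 (hA : Ari LA M) : Dfn LA (Set.univ : Set M) fun v => Sat0 (v 0) (v 1) (v 2) (v 3) := by
  unfold Sat0 TC FC TJ FJ
  repeat' (first
    | exact DF.var _
    | exact DF.par _
    | apply Ari.add hA
    | apply Ari.mul hA
    | apply df_pr hA
    | apply df_bv hA
    | apply Dfn.and
    | apply Dfn.or
    | apply Dfn.not
    | apply Dfn.iff
    | apply Dfn.eqT
    | apply Ari.lt hA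
    | apply Ari.le hA
    | (apply ex'; beta_reduce)
    | (apply all'; beta_reduce)
    | apply Dfn.imp)

omit [LA.Structure M] in
theorem zero_ne_succ (x : M) : ¬ (0 : M) = x + 1 := by
  intro h
  have h1 : (0 : M) < x + 1 := lt_of_lt_of_le zero_lt_one le_add_self
  exact h1.ne h

/-- tables are sound: terms -/
theorem TC_sound (hc : Compat M) (hA : Ari LA M) {a c d e : M} {k x : ℕ} (h : TC a c (k : M) d e (x : M)) :
    ∀ y : ℕ, y ≤ x → ∀ v : M, bv d e (y : M) = v + 1 →
      ∃ t : LA.Term (Empty ⊕ Fin k), gt t = y ∧ tv (fun i => bv a c (i : M)) t = v := by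
  intro y
  induction y using Nat.strong_induction_on with
  | _ y ih =>
    intro hy v hv
    have hyx : (y : M) ≤ (x : M) := by exact_mod_cast hy
    rcases h (y : M) v hyx hv with ⟨i, hi, h1, h2⟩ | ⟨h1, h2⟩ | ⟨h1, h2⟩ | ⟨s, t, u, w, h1, h2, h3, h4⟩ |
      ⟨s, t, u, w, h1, h2, h3, h4⟩
    · obtain ⟨z, i', h3, h4, h5⟩ := std_prN hc hA h1
      have h6 : z = 0 := by
        have : ((0 : ℕ) : M) = (z : M) := by rw [Nat.cast_zero]; exact h3
        exact (Nat.cast_injective this).symm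
      subst h6
      have hi' : i' < k := by
        rw [h4] at hi
        exact_mod_cast hi
      refine ⟨Term.var (Sum.inr ⟨i', hi'⟩), ?_, ?_⟩
      · rw [gt_var]
        exact h5.symm
      · rw [tv_var, h2, h4]
    · refine ⟨Term.func (L := LA) (AF.zero : LA.Functions 0) Fin.elim0, ?_, ?_⟩
      · rw [gt_zero]
        have h3 : ((pr 1 0 : ℕ) : M) = (y : M) := by
          rw [cast_pr, h1, Nat.cast_one, Nat.cast_zero]
        exact Nat.cast_injective h3
      · rw [tv_zero hc, h2]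
    · refine ⟨Term.func (L := LA) (AF.one : LA.Functions 0) Fin.elim0, ?_, ?_⟩
      · rw [gt_one]
        have h3 : ((pr 2 0 : ℕ) : M) = (y : M) := by
          rw [cast_pr, h1, Nat.cast_ofNat, Nat.cast_zero]
        exact Nat.cast_injective h3
      · rw [tv_one hc, h2]
    · obtain ⟨s', t', hs, ht, h5, h6, h7⟩ := std_prN3 hc hA (y := y) (c := 3) (by norm_num)
        (by rw [Nat.cast_ofNat]; exact h1)
      rw [hs] at h2
      rw [ht] at h3
      obtain ⟨t1, ht1, ht1'⟩ := ih s' h6 (by omega) u h2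
      obtain ⟨t2, ht2, ht2'⟩ := ih t' h7 (by omega) w h3
      refine ⟨Term.func (L := LA) (AF.add : LA.Functions 2) ![t1, t2], ?_, ?_⟩
      · rw [gt_add]
        show pr 3 (pr (gt t1) (gt t2)) = y
        rw [ht1, ht2, h5]
      · rw [tv_add hc, ht1', ht2', h4]
    · obtain ⟨s', t', hs, ht, h5, h6, h7⟩ := std_prN3 hc hA (y := y) (c := 4) (by norm_num)
        (by rw [Nat.cast_ofNat]; exact h1)
      rw [hs] at h2
      rw [ht] at h3
      obtain ⟨t1, ht1, ht1'⟩ := ih s' h6 (by omega) u h2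
      obtain ⟨t2, ht2, ht2'⟩ := ih t' h7 (by omega) w h3
      refine ⟨Term.func (L := LA) (AF.mul : LA.Functions 2) ![t1, t2], ?_, ?_⟩
      · rw [gt_mul]
        show pr 4 (pr (gt t1) (gt t2)) = y
        rw [ht1, ht2, h5]
      · rw [tv_mul hc, ht1', ht2', h4]

/-- tables are sound: formulas -/
theorem FC_sound (hc : Compat M) (hA : Ari LA M) {a c d e g h : M} {k x : ℕ}
    (hT : TC a c (k : M) d e (x : M)) (hF : FC d e g h (x : M)) :
    ∀ y : ℕ, y ≤ x → ∀ v : M, bv g h (y : M) = v + 1 →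
      ∃ φ : LA.BoundedFormula Empty k, φ.IsQF ∧ gf φ = y ∧ (v = 1 ↔ R (fun i => bv a c (i : M)) φ) := by
  have hS := TC_sound hc hA hT
  intro y
  induction y using Nat.strong_induction_on with
  | _ y ih =>
    intro hy v hv
    have hyx : (y : M) ≤ (x : M) := by exact_mod_cast hy
    rcases hF (y : M) v hyx hv with ⟨h1, h2⟩ | ⟨s, t, u, w, h1, h2, h3, h4⟩ |
      ⟨s, t, u, w, h1, h2, h3, h4⟩ | ⟨s, t, u, w, h1, h2, h3, h4⟩
    · refine ⟨BoundedFormula.falsum, BoundedFormula.IsQF.falsum, ?_, ?_⟩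
      · have h3 : ((pr 5 0 : ℕ) : M) = (y : M) := by
          rw [cast_pr, h1, Nat.cast_ofNat, Nat.cast_zero]
        exact Nat.cast_injective h3
      · exact ⟨fun h => absurd h h2, fun h => False.elim h⟩
    · obtain ⟨s', t', hs, ht, h5, h6, h7⟩ := std_prN3 hc hA (y := y) (c := 6) (by norm_num)
        (by rw [Nat.cast_ofNat]; exact h1)
      rw [hs] at h2
      rw [ht] at h3
      obtain ⟨t1, ht1, ht1'⟩ := hS s' (by omega) u h2
      obtain ⟨t2, ht2, ht2'⟩ := hS t' (by omega) w h3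
      refine ⟨BoundedFormula.equal t1 t2, BoundedFormula.IsQF.of_isAtomic (BoundedFormula.IsAtomic.equal t1 t2),
        ?_, ?_⟩
      · show pr 6 (pr (gt t1) (gt t2)) = y
        rw [ht1, ht2, h5]
      · rw [R_equal, ht1', ht2', h4]
    · obtain ⟨s', t', hs, ht, h5, h6, h7⟩ := std_prN3 hc hA (y := y) (c := 7) (by norm_num)
        (by rw [Nat.cast_ofNat]; exact h1)
      rw [hs] at h2
      rw [ht] at h3
      obtain ⟨t1, ht1, ht1'⟩ := hS s' (by omega) u h2
      obtain ⟨t2, ht2, ht2'⟩ := hS t' (by omega) w h3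
      refine ⟨ltF t1 t2, BoundedFormula.IsQF.of_isAtomic (BoundedFormula.IsAtomic.rel _ _), ?_, ?_⟩
      · show pr 7 (pr (gt t1) (gt t2)) = y
        rw [ht1, ht2, h5]
      · rw [R_lt hc, ht1', ht2', h4]
    · obtain ⟨s', t', hs, ht, h5, h6, h7⟩ := std_prN3 hc hA (y := y) (c := 8) (by norm_num)
        (by rw [Nat.cast_ofNat]; exact h1)
      rw [hs] at h2
      rw [ht] at h3
      obtain ⟨f1, hf1, hf1', hf1''⟩ := ih s' h6 (by omega) u h2
      obtain ⟨f2, hf2, hf2', hf2''⟩ := ih t' h7 (by omega) w h3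
      refine ⟨f1.imp f2, hf1.imp hf2, ?_, ?_⟩
      · show pr 8 (pr (gf f1) (gf f2)) = y
        rw [hf1', hf2', h5]
      · rw [R_imp, ← hf1'', ← hf2'', h4]

open Classical in
/-- the table of the values of the terms -/
noncomputable def TT (s : ℕ → M) (k : ℕ) (y : ℕ) : M :=
  if h : ∃ t : LA.Term (Empty ⊕ Fin k), gt t = y then tv s h.choose + 1 else 0

omit [IsStrictOrderedRing M] [CanonicallyOrderedAdd M] [LinearOrder M] in
theorem TT_gt (s : ℕ → M) {k : ℕ} (t : LA.Term (Empty ⊕ Fin k)) : TT s k (gt t) = tv s t + 1 := by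
  have h : ∃ t' : LA.Term (Empty ⊕ Fin k), gt t' = gt t := ⟨t, rfl⟩
  unfold TT
  rw [dif_pos h, gt_inj _ _ h.choose_spec]

theorem TT_spec {s : ℕ → M} {k y : ℕ} {v : M} (h : TT s k y = v + 1) :
    ∃ t : LA.Term (Empty ⊕ Fin k), gt t = y ∧ tv s t = v := by
  by_cases h1 : ∃ t : LA.Term (Empty ⊕ Fin k), gt t = y
  · obtain ⟨t, rfl⟩ := h1
    rw [TT_gt] at h
    exact ⟨t, rfl, add_right_cancel h⟩
  · unfold TT at h
    rw [dif_neg h1] at h
    exact absurd h (zero_ne_succ v)

open Classical in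
/-- the table of the truth values of the quantifier-free formulas -/
noncomputable def FF (s : ℕ → M) (k : ℕ) (y : ℕ) : M :=
  if h : ∃ φ : LA.BoundedFormula Empty k, φ.IsQF ∧ gf φ = y then
    (if R s h.choose then 1 else 0) + 1 else 0

open Classical in
omit [IsStrictOrderedRing M] [CanonicallyOrderedAdd M] [LinearOrder M] in
theorem FF_gf (s : ℕ → M) {k : ℕ} (φ : LA.BoundedFormula Empty k) (hφ : φ.IsQF) :
    FF s k (gf φ) = (if R s φ then 1 else 0) + 1 := by
  have h : ∃ φ' : LA.BoundedFormula Empty k, φ'.IsQF ∧ gf φ' = gf φ := ⟨φ, hφ, rfl⟩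
  unfold FF
  rw [dif_pos h]
  have h1 : h.choose = φ := gf_inj _ _ h.choose_spec.2
  rw [h1]

theorem FF_spec {s : ℕ → M} {k y : ℕ} {v : M} (h : FF s k y = v + 1) :
    ∃ φ : LA.BoundedFormula Empty k, φ.IsQF ∧ gf φ = y ∧ (v = 1 ↔ R s φ) := by
  classical
  by_cases h1 : ∃ φ : LA.BoundedFormula Empty k, φ.IsQF ∧ gf φ = y
  · obtain ⟨φ, hφ, rfl⟩ := h1
    rw [FF_gf s φ hφ] at h
    have h2 := add_right_cancel h
    refine ⟨φ, hφ, rfl, ?_⟩
    rw [← h2]
    by_cases h3 : R s φ
    · simp [h3]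
    · simp [h3]
  · unfold FF at h
    rw [dif_neg h1] at h
    exact absurd h (zero_ne_succ v)

theorem gt_le_right {c s t x : ℕ} (h : pr c (pr s t) ≤ x) : s ≤ x ∧ t ≤ x :=
  ⟨(le_pr_left s t).trans ((le_pr_right _ _).trans h), (le_pr_right s t).trans ((le_pr_right _ _).trans h)⟩

/-- the correctness of the truth definition for quantifier-free formulas -/
theorem Sat0_iff (hc : Compat M) (hA : Ari LA M) (a c : M) (k x : ℕ) :
    Sat0 a c (k : M) (x : M) ↔ ∃ φ : LA.BoundedFormula Empty k, φ.IsQF ∧ gf φ = x ∧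
      R (fun i => bv a c (i : M)) φ := by
  constructor
  · rintro ⟨d, e, g, h, h1, h2, h3⟩
    obtain ⟨φ, hφ, hφ', hφ''⟩ := FC_sound hc hA h1 h2 x le_rfl 1 h3
    exact ⟨φ, hφ, hφ', hφ''.1 rfl⟩
  · rintro ⟨φ, hφ, hφ', hφ''⟩
    set s : ℕ → M := fun i => bv a c (i : M) with hs
    obtain ⟨d, e, hde⟩ := exists_bv hA (x + 1) (TT s k)
    obtain ⟨g, h, hgh⟩ := exists_bv hA (x + 1) (FF s k)
    refine ⟨d, e, g, h, ?_, ?_, ?_⟩
    · intro y v hy hv
      obtain ⟨y', hy', rfl⟩ := std_below hc x y hy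
      rw [hde y' (by omega)] at hv
      obtain ⟨t, ht, htv⟩ := TT_spec hv
      subst ht
      subst htv
      induction t using term_cases with
      | h0 i =>
        refine Or.inl ⟨((i : ℕ) : M), by exact_mod_cast i.2, ?_, rfl⟩
        rw [gt_var, cast_pr, Nat.cast_zero]
      | h1 =>
        refine Or.inr (Or.inl ⟨?_, tv_zero hc s⟩)
        rw [gt_zero, cast_pr, Nat.cast_one, Nat.cast_zero]
      | h2 =>
        refine Or.inr (Or.inr (Or.inl ⟨?_, tv_one hc s⟩))
        rw [gt_one, cast_pr, Nat.cast_ofNat, Nat.cast_zero]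
      | h3 t t' =>
        have hle := gt_le_right (c := 3) (s := gt t) (t := gt t') hy'
        refine Or.inr (Or.inr (Or.inr (Or.inl ⟨(gt t : M), (gt t' : M), tv s t, tv s t', ?_, ?_, ?_,
          tv_add hc s t t'⟩)))
        · show ((pr 3 (pr (gt t) (gt t')) : ℕ) : M) = _
          rw [cast_pr, cast_pr, Nat.cast_ofNat]
        · rw [hde _ (by omega), TT_gt]
        · rw [hde _ (by omega), TT_gt]
      | h4 t t' =>
        have hle := gt_le_right (c := 4) (s := gt t) (t := gt t') hy'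
        refine Or.inr (Or.inr (Or.inr (Or.inr ⟨(gt t : M), (gt t' : M), tv s t, tv s t', ?_, ?_, ?_,
          tv_mul hc s t t'⟩)))
        · show ((pr 4 (pr (gt t) (gt t')) : ℕ) : M) = _
          rw [cast_pr, cast_pr, Nat.cast_ofNat]
        · rw [hde _ (by omega), TT_gt]
        · rw [hde _ (by omega), TT_gt]
    · intro y v hy hv
      obtain ⟨y', hy', rfl⟩ := std_below hc x y hy
      rw [hgh y' (by omega)] at hv
      obtain ⟨ψ, hψ, hψ', hψ''⟩ := FF_spec hv
      subst hψ'
      cases hψ with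
      | falsum =>
        refine Or.inl ⟨?_, fun h => hψ''.1 h⟩
        show ((pr 5 0 : ℕ) : M) = _
        rw [cast_pr, Nat.cast_ofNat, Nat.cast_zero]
      | of_isAtomic hat =>
        cases hat with
        | equal t t' =>
          have hle := gt_le_right (c := 6) (s := gt t) (t := gt t') hy'
          refine Or.inr (Or.inl ⟨(gt t : M), (gt t' : M), tv s t, tv s t', ?_, ?_, ?_, ?_⟩)
          · show ((pr 6 (pr (gt t) (gt t')) : ℕ) : M) = _
            rw [cast_pr, cast_pr, Nat.cast_ofNat]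
          · rw [hde _ (by omega), TT_gt]
          · rw [hde _ (by omega), TT_gt]
          · exact hψ''
        | rel P ts =>
          cases P with
          | lt =>
            have e2 : ts = ![ts 0, ts 1] := by
              funext i
              fin_cases i <;> rfl
            rw [e2] at hψ''
            have hle := gt_le_right (c := 7) (s := gt (ts 0)) (t := gt (ts 1)) hy'
            refine Or.inr (Or.inr (Or.inl ⟨(gt (ts 0) : M), (gt (ts 1) : M), tv s (ts 0), tv s (ts 1),
              ?_, ?_, ?_, ?_⟩))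
            · show ((pr 7 (pr (gt (ts 0)) (gt (ts 1))) : ℕ) : M) = _
              rw [cast_pr, cast_pr, Nat.cast_ofNat]
            · rw [hde _ (by omega), TT_gt]
            · rw [hde _ (by omega), TT_gt]
            · exact hψ''.trans (R_lt hc s _ _)
      | @imp f f' hf hf' =>
        classical
        have hle := gt_le_right (c := 8) (s := gf f) (t := gf f') hy'
        refine Or.inr (Or.inr (Or.inr ⟨(gf f : M), (gf f' : M), (if R s f then 1 else 0),
          (if R s f' then 1 else 0), ?_, ?_, ?_, ?_⟩))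
        · show ((pr 8 (pr (gf f) (gf f')) : ℕ) : M) = _
          rw [cast_pr, cast_pr, Nat.cast_ofNat]
        · rw [hgh _ (by omega), FF_gf s f hf]
        · rw [hgh _ (by omega), FF_gf s f' hf']
        · rw [hψ'', R_imp]
          by_cases h1 : R s f <;> by_cases h2 : R s f' <;> simp [h1, h2]
    · classical
      rw [hgh x (by omega), ← hφ', FF_gf s φ hφ, if_pos hφ'']

end Pool.Agent.TH541.TN
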