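import Pool.Agent.TH748.MU.Defs

/-! Codes of terms and formulas: injectivity. -/

set_option autoImplicit false

open FirstOrder FirstOrder.Language
open Pool.Agent.Helper227 Pool.Agent.Helper227.EN
open Pool.Agent.TH748.MU

namespace Pool.Agent.TH541.TN

theorem pr_inj {x y x' y' : ℕ} (h : pr x y = pr x' y') : x = x' ∧ y = y' := by
  unfold pr at h
  have key : ∀ x y x' y' : ℕ, (x + y) * (x + y) + x = (x' + y') * (x' + y') + x' →
      ¬ x + y < x' + y' := by
    intro x y x' y' h h1
    have h2 : (x + y + 1) * (x + y + 1) ≤ (x' + y') * (x' + y') := Nat.mul_le_mul h1 h1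
    nlinarith
  have h1 : x + y = x' + y' := by
    rcases lt_trichotomy (x + y) (x' + y') with h2 | h2 | h2
    · exact absurd h2 (key _ _ _ _ h)
    · exact h2
    · exact absurd h2 (key _ _ _ _ h.symm)
  rw [h1] at h
  omega

theorem le_pr_right (x y : ℕ) : y ≤ pr x y := by
  unfold pr
  have h1 : y ≤ y * y := Nat.le_mul_self y
  nlinarith [Nat.zero_le x, Nat.zero_le (x * y), Nat.zero_le (x * x)]

theorem le_pr_left (x y : ℕ) : x ≤ pr x y := by
  unfold pr
  exact Nat.le_add_left _ _

theorem lt_pr {x y : ℕ} (hx : 1 ≤ x) : y < pr x y := by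
  unfold pr
  have h1 : y ≤ y * y := Nat.le_mul_self y
  nlinarith [Nat.zero_le (x * y), Nat.mul_le_mul hx hx]

theorem gt_zero {k : ℕ} (ts : Fin 0 → LA.Term (Empty ⊕ Fin k)) :
    gt (Term.func (L := LA) (AF.zero : LA.Functions 0) ts) = pr 1 0 := rfl

theorem gt_one {k : ℕ} (ts : Fin 0 → LA.Term (Empty ⊕ Fin k)) :
    gt (Term.func (L := LA) (AF.one : LA.Functions 0) ts) = pr 2 0 := rfl

theorem gt_add {k : ℕ} (ts : Fin 2 → LA.Term (Empty ⊕ Fin k)) :
    gt (Term.func (L := LA) (AF.add : LA.Functions 2) ts) = pr 3 (pr (gt (ts 0)) (gt (ts 1))) := rfl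

theorem gt_mul {k : ℕ} (ts : Fin 2 → LA.Term (Empty ⊕ Fin k)) :
    gt (Term.func (L := LA) (AF.mul : LA.Functions 2) ts) = pr 4 (pr (gt (ts 0)) (gt (ts 1))) := rfl

theorem gt_var {k : ℕ} (i : Fin k) : gt (k := k) (Term.var (Sum.inr i)) = pr 0 i := rfl

/-- the possible forms of a term -/
theorem term_cases {k : ℕ} {P : LA.Term (Empty ⊕ Fin k) → Prop}
    (h0 : ∀ i : Fin k, P (Term.var (Sum.inr i)))
    (h1 : P (Term.func (L := LA) (AF.zero : LA.Functions 0) Fin.elim0))
    (h2 : P (Term.func (L := LA) (AF.one : LA.Functions 0) Fin.elim0))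
    (h3 : ∀ s t, P (Term.func (L := LA) (AF.add : LA.Functions 2) ![s, t]))
    (h4 : ∀ s t, P (Term.func (L := LA) (AF.mul : LA.Functions 2) ![s, t]))
    (t : LA.Term (Empty ⊕ Fin k)) : P t := by
  have e2 : ∀ ts : Fin 2 → LA.Term (Empty ⊕ Fin k), ts = ![ts 0, ts 1] := by
    intro ts
    funext i
    fin_cases i <;> rfl
  have e0 : ∀ ts : Fin 0 → LA.Term (Empty ⊕ Fin k), ts = Fin.elim0 := fun ts => Subsingleton.elim _ _
  cases t with
  | var x =>
    rcases x with x | i
    · exact x.elim
    · exact h0 i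
  | func f ts =>
    cases f with
    | zero => rw [e0 ts]; exact h1
    | one => rw [e0 ts]; exact h2
    | add => rw [e2 ts]; exact h3 _ _
    | mul => rw [e2 ts]; exact h4 _ _

/-- structural induction for terms -/
theorem term_ind {k : ℕ} {P : LA.Term (Empty ⊕ Fin k) → Prop}
    (h0 : ∀ i : Fin k, P (Term.var (Sum.inr i)))
    (h1 : P (Term.func (L := LA) (AF.zero : LA.Functions 0) Fin.elim0))
    (h2 : P (Term.func (L := LA) (AF.one : LA.Functions 0) Fin.elim0))
    (h3 : ∀ s t, P s → P t → P (Term.func (L := LA) (AF.add : LA.Functions 2) ![s, t]))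
    (h4 : ∀ s t, P s → P t → P (Term.func (L := LA) (AF.mul : LA.Functions 2) ![s, t]))
    (t : LA.Term (Empty ⊕ Fin k)) : P t := by
  have e2 : ∀ ts : Fin 2 → LA.Term (Empty ⊕ Fin k), ts = ![ts 0, ts 1] := by
    intro ts
    funext i
    fin_cases i <;> rfl
  have e0 : ∀ ts : Fin 0 → LA.Term (Empty ⊕ Fin k), ts = Fin.elim0 := fun ts => Subsingleton.elim _ _
  induction t with
  | var x =>
    rcases x with x | i
    · exact x.elim
    · exact h0 i
  | func f ts ih =>
    cases f with
    | zero => rw [e0 ts]; exact h1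
    | one => rw [e0 ts]; exact h2
    | add => rw [e2 ts]; exact h3 _ _ (ih 0) (ih 1)
    | mul => rw [e2 ts]; exact h4 _ _ (ih 0) (ih 1)

theorem gt_inj {k : ℕ} : ∀ s t : LA.Term (Empty ⊕ Fin k), gt s = gt t → s = t := by
  intro s
  induction s using term_ind with
  | h0 i =>
    intro t
    induction t using term_cases with
    | h0 j =>
      intro h
      rw [gt_var, gt_var] at h
      rw [Fin.ext (pr_inj h).2]
    | h1 => intro h; exact absurd (pr_inj h).1 (by norm_num)
    | h2 => intro h; exact absurd (pr_inj h).1 (by norm_num)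
    | h3 s t => intro h; exact absurd (pr_inj h).1 (by norm_num)
    | h4 s t => intro h; exact absurd (pr_inj h).1 (by norm_num)
  | h1 =>
    intro t
    induction t using term_cases with
    | h0 j => intro h; exact absurd (pr_inj h).1 (by norm_num)
    | h1 => intro h; rfl
    | h2 => intro h; exact absurd (pr_inj h).1 (by norm_num)
    | h3 s t => intro h; exact absurd (pr_inj h).1 (by norm_num)
    | h4 s t => intro h; exact absurd (pr_inj h).1 (by norm_num)
  | h2 =>
    intro t
    induction t using term_cases with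
    | h0 j => intro h; exact absurd (pr_inj h).1 (by norm_num)
    | h1 => intro h; exact absurd (pr_inj h).1 (by norm_num)
    | h2 => intro h; rfl
    | h3 s t => intro h; exact absurd (pr_inj h).1 (by norm_num)
    | h4 s t => intro h; exact absurd (pr_inj h).1 (by norm_num)
  | h3 s s' ih ih' =>
    intro t
    induction t using term_cases with
    | h0 j => intro h; exact absurd (pr_inj h).1 (by norm_num)
    | h1 => intro h; exact absurd (pr_inj h).1 (by norm_num)
    | h2 => intro h; exact absurd (pr_inj h).1 (by norm_num)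
    | h3 t t' =>
      intro h
      rw [gt_add, gt_add] at h
      obtain ⟨h1, h2⟩ := pr_inj (pr_inj h).2
      have e1 : s = t := ih _ h1
      have e2 : s' = t' := ih' _ h2
      rw [e1, e2]
    | h4 t t' => intro h; exact absurd (pr_inj h).1 (by norm_num)
  | h4 s s' ih ih' =>
    intro t
    induction t using term_cases with
    | h0 j => intro h; exact absurd (pr_inj h).1 (by norm_num)
    | h1 => intro h; exact absurd (pr_inj h).1 (by norm_num)
    | h2 => intro h; exact absurd (pr_inj h).1 (by norm_num)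
    | h3 t t' => intro h; exact absurd (pr_inj h).1 (by norm_num)
    | h4 t t' =>
      intro h
      rw [gt_mul, gt_mul] at h
      obtain ⟨h1, h2⟩ := pr_inj (pr_inj h).2
      have e1 : s = t := ih _ h1
      have e2 : s' = t' := ih' _ h2
      rw [e1, e2]

/-- the atomic formula `s < t` -/
abbrev ltF {k : ℕ} (s t : LA.Term (Empty ⊕ Fin k)) : LA.BoundedFormula Empty k :=
  BoundedFormula.rel (L := LA) (AR.lt : LA.Relations 2) ![s, t]

theorem gf_lt {k : ℕ} (s t : LA.Term (Empty ⊕ Fin k)) : gf (ltF s t) = pr 7 (pr (gt s) (gt t)) := rfl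

theorem form_cases {P : ∀ {k : ℕ}, LA.BoundedFormula Empty k → Prop}
    (h0 : ∀ {k : ℕ}, P (BoundedFormula.falsum : LA.BoundedFormula Empty k))
    (h1 : ∀ {k : ℕ} (s t : LA.Term (Empty ⊕ Fin k)), P (BoundedFormula.equal s t))
    (h2 : ∀ {k : ℕ} (s t : LA.Term (Empty ⊕ Fin k)), P (ltF s t))
    (h3 : ∀ {k : ℕ} (f g : LA.BoundedFormula Empty k), P (f.imp g))
    (h4 : ∀ {k : ℕ} (f : LA.BoundedFormula Empty (k + 1)), P f.all)
    {k : ℕ} (φ : LA.BoundedFormula Empty k) : P φ := by
  cases φ with
  | falsum => exact h0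
  | equal s t => exact h1 s t
  | rel R ts =>
    cases R with
    | lt =>
      have e2 : ts = ![ts 0, ts 1] := by
        funext i
        fin_cases i <;> rfl
      rw [e2]
      exact h2 _ _
  | imp f g => exact h3 f g
  | all f => exact h4 f

theorem form_ind {P : ∀ {k : ℕ}, LA.BoundedFormula Empty k → Prop}
    (h0 : ∀ {k : ℕ}, P (BoundedFormula.falsum : LA.BoundedFormula Empty k))
    (h1 : ∀ {k : ℕ} (s t : LA.Term (Empty ⊕ Fin k)), P (BoundedFormula.equal s t))
    (h2 : ∀ {k : ℕ} (s t : LA.Term (Empty ⊕ Fin k)), P (ltF s t))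
    (h3 : ∀ {k : ℕ} (f g : LA.BoundedFormula Empty k), P f → P g → P (f.imp g))
    (h4 : ∀ {k : ℕ} (f : LA.BoundedFormula Empty (k + 1)), P f → P f.all)
    {k : ℕ} (φ : LA.BoundedFormula Empty k) : P φ := by
  induction φ with
  | falsum => exact h0
  | equal s t => exact h1 s t
  | rel R ts =>
    cases R with
    | lt =>
      have e2 : ts = ![ts 0, ts 1] := by
        funext i
        fin_cases i <;> rfl
      rw [e2]
      exact h2 _ _
  | imp f g ih ih' => exact h3 f g ih ih'
  | all f ih => exact h4 f ih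

theorem gf_inj {k : ℕ} (φ ψ : LA.BoundedFormula Empty k) (h : gf φ = gf ψ) : φ = ψ := by
  revert ψ
  refine form_ind (P := fun {k} φ => ∀ ψ : LA.BoundedFormula Empty k, gf φ = gf ψ → φ = ψ)
    ?_ ?_ ?_ ?_ ?_ φ
  · intro k ψ
    refine form_cases (P := fun {k} ψ => gf (BoundedFormula.falsum : LA.BoundedFormula Empty k) = gf ψ →
      BoundedFormula.falsum = ψ) ?_ ?_ ?_ ?_ ?_ ψ
    · intro k _; rfl
    · intro k s t h; exact absurd (pr_inj h).1 (by norm_num)
    · intro k s t h; exact absurd (pr_inj h).1 (by norm_num)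
    · intro k s t h; exact absurd (pr_inj h).1 (by norm_num)
    · intro k s h; exact absurd (pr_inj h).1 (by norm_num)
  · intro k s t ψ h
    cases ψ with
    | falsum => exact absurd (pr_inj h).1 (by norm_num)
    | equal s' t' =>
      obtain ⟨h1, h2⟩ := pr_inj (pr_inj h).2
      rw [gt_inj _ _ h1, gt_inj _ _ h2]
    | rel R ts =>
      cases R with
      | lt => exact absurd (pr_inj h).1 (by norm_num)
    | imp f g => exact absurd (pr_inj h).1 (by norm_num)
    | all f => exact absurd (pr_inj h).1 (by norm_num)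
  · intro k s t ψ h
    cases ψ with
    | falsum => exact absurd (pr_inj h).1 (by norm_num)
    | equal s' t' => exact absurd (pr_inj h).1 (by norm_num)
    | rel R ts =>
      cases R with
      | lt =>
        obtain ⟨h1, h2⟩ := pr_inj (pr_inj h).2
        have e2 : ts = ![ts 0, ts 1] := by
          funext i
          fin_cases i <;> rfl
        have e3 : s = ts 0 := gt_inj _ _ h1
        have e4 : t = ts 1 := gt_inj _ _ h2
        rw [e2, e3, e4]
    | imp f g => exact absurd (pr_inj h).1 (by norm_num)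
    | all f => exact absurd (pr_inj h).1 (by norm_num)
  · intro k f g ihf ihg ψ h
    cases ψ with
    | falsum => exact absurd (pr_inj h).1 (by norm_num)
    | equal s' t' => exact absurd (pr_inj h).1 (by norm_num)
    | rel R ts =>
      cases R with
      | lt => exact absurd (pr_inj h).1 (by norm_num)
    | imp f' g' =>
      obtain ⟨h1, h2⟩ := pr_inj (pr_inj h).2
      rw [ihf _ h1, ihg _ h2]
    | all f => exact absurd (pr_inj h).1 (by norm_num)
  · intro k f ihf ψ h
    cases ψ with
    | falsum => exact absurd (pr_inj h).1 (by norm_num)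
    | equal s' t' => exact absurd (pr_inj h).1 (by norm_num)
    | rel R ts =>
      cases R with
      | lt => exact absurd (pr_inj h).1 (by norm_num)
    | imp f' g' => exact absurd (pr_inj h).1 (by norm_num)
    | all f' => rw [ihf _ (pr_inj h).2]

end Pool.Agent.TH541.TN
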