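import Pool.Agent.TH541.TN.Syn
import Pool.Agent.Helper227.ENJ.P_beta_exists
import Pool.Agent.Helper227.ENJ.P_beta_unique
import Pool.Agent.Helper227.ENJ.P_std_below

/-! Definability toolkit; the beta function as a definable function. -/

set_option autoImplicit false

open FirstOrder FirstOrder.Language
open Pool.Agent.Helper227.EN (LA AF Compat Beta beta_exists beta_unique std_below)
open Pool.Agent.TH752.AR
open Pool.Agent.TH748.MU

namespace Pool.Agent.TH541.TN

section gen

variable {L : FirstOrder.Language.{0, 0}} {N : Type} [L.Structure N] {A : Set N}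

theorem ex' {P : N → (ℕ → N) → Prop} (h : Dfn L A fun w => P (w 0) (fun n => w (n + 1))) :
    Dfn L A fun v => ∃ x, P x v := h.ex

theorem all' {P : N → (ℕ → N) → Prop} (h : Dfn L A fun w => P (w 0) (fun n => w (n + 1))) :
    Dfn L A fun v => ∀ x, P x v := h.all

theorem dfren {t : (ℕ → N) → N} (ht : DF L A t) (g : ℕ → ℕ) : DF L A fun v => t (fun n => v (g n)) :=
  Dfn.ren ht (fun n => match n with | 0 => 0 | n + 1 => g n + 1)

theorem rel4 {R : N → N → N → N → Prop} (hR : Dfn L A fun v => R (v 0) (v 1) (v 2) (v 3))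
    {s1 s2 s3 s4 : (ℕ → N) → N} (h1 : DF L A s1) (h2 : DF L A s2) (h3 : DF L A s3) (h4 : DF L A s4) :
    Dfn L A fun v => R (s1 v) (s2 v) (s3 v) (s4 v) := by
  have key : Dfn L A fun v => ∃ y1, ∃ y2, ∃ y3, ∃ y4, y1 = s1 v ∧ y2 = s2 v ∧ y3 = s3 v ∧ y4 = s4 v ∧
      R y1 y2 y3 y4 := by
    refine ex' (ex' (ex' (ex' ?_)))
    refine (Dfn.eqT (DF.var 3) (dfren h1 (fun n => n + 4))).and
      ((Dfn.eqT (DF.var 2) (dfren h2 (fun n => n + 4))).and
      ((Dfn.eqT (DF.var 1) (dfren h3 (fun n => n + 4))).and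
      ((Dfn.eqT (DF.var 0) (dfren h4 (fun n => n + 4))).and ?_)))
    exact hR.ren (fun n => match n with | 0 => 3 | 1 => 2 | 2 => 1 | _ + 3 => 0)
  refine key.congr fun v => ?_
  constructor
  · rintro ⟨_, _, _, _, rfl, rfl, rfl, rfl, h⟩
    exact h
  · intro h
    exact ⟨_, _, _, _, rfl, rfl, rfl, rfl, h⟩

end gen

section arith

variable {M : Type} [LA.Structure M] [CommSemiring M] [LinearOrder M]
    [IsStrictOrderedRing M] [CanonicallyOrderedAdd M]

open Classical in
/-- the remainder of `a` modulo `1 + (i + 1) c` -/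
noncomputable def bv (a c i : M) : M := if h : ∃ v, Beta a c i v then h.choose else 0

theorem beta_bv (hA : Ari LA M) (a c i : M) : Beta a c i (bv a c i) := by
  have h : ∃ v, Beta a c i v := by
    obtain ⟨q, r, hr, he⟩ := hA.div a (b := 1 + (i + 1) * c) (lt_of_lt_of_le zero_lt_one le_self_add)
    exact ⟨r, hr, q, by rw [he, mul_comm]⟩
  unfold bv
  rw [dif_pos h]
  exact h.choose_spec

theorem bv_eq (hA : Ari LA M) {a c i v : M} : v = bv a c i ↔ Beta a c i v := by
  constructor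
  · rintro rfl
    exact beta_bv hA a c i
  · intro h
    exact beta_unique hA.disc a c i _ _ h (beta_bv hA a c i)

theorem exists_bv (hA : Ari LA M) (k : ℕ) (f : ℕ → M) : ∃ a c : M, ∀ i < k, bv a c (i : M) = f i := by
  obtain ⟨a, c, h⟩ := beta_exists hA.disc k f
  exact ⟨a, c, fun i hi => ((bv_eq hA).2 (h i hi)).symm⟩

theorem df_bv (hA : Ari LA M) {A : Set M} {s t r : (ℕ → M) → M} (hs : DF LA A s) (ht : DF LA A t)
    (hr : DF LA A r) : DF LA A fun v => bv (s v) (t v) (r v) := by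
  have h1 : Dfn LA A fun v => (v 0 < 1 + (r (fun n => v (n + 1)) + 1) * t (fun n => v (n + 1)) ∧
      ∃ q, s (fun n => v (n + 1)) =
        q * (1 + (r (fun n => v (n + 1)) + 1) * t (fun n => v (n + 1))) + v 0) := by
    have hs1 : DF LA A fun v => s (fun n => v (n + 2)) := dfren hs (fun n => n + 2)
    have ht1 : DF LA A fun v => t (fun n => v (n + 2)) := dfren ht (fun n => n + 2)
    have hr1 : DF LA A fun v => r (fun n => v (n + 2)) := dfren hr (fun n => n + 2)
    have ht0 : DF LA A fun v => t (fun n => v (n + 1)) := dfren ht (fun n => n + 1)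
    have hr0 : DF LA A fun v => r (fun n => v (n + 1)) := dfren hr (fun n => n + 1)
    refine (hA.lt (DF.var 0) (hA.add hA.one (hA.mul (hA.add hr0 hA.one) ht0))).and (ex' ?_)
    exact Dfn.eqT hs1 (hA.add (hA.mul (DF.var 0) (hA.add hA.one (hA.mul (hA.add hr1 hA.one) ht1))) (DF.var 1))
  refine Dfn.congr h1 fun v => ?_
  show _ ↔ v 0 = bv _ _ _
  rw [bv_eq hA]
  rfl

theorem df_pr (hA : Ari LA M) {A : Set M} {s t : (ℕ → M) → M} (hs : DF LA A s) (ht : DF LA A t) :
    DF LA A fun v => prN (s v) (t v) :=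
  hA.add (hA.mul (hA.add hs ht) (hA.add hs ht)) hs

omit [LA.Structure M] [LinearOrder M] [IsStrictOrderedRing M] [CanonicallyOrderedAdd M] in
theorem cast_pr (x y : ℕ) : ((pr x y : ℕ) : M) = prN (x : M) (y : M) := by
  unfold pr prN
  push_cast
  rfl

omit [LA.Structure M] [IsStrictOrderedRing M] in
theorem le_prN_left (x y : M) : x ≤ prN x y := le_add_self

theorem le_prN_right (hA : Ari LA M) (x y : M) : y ≤ prN x y := by
  unfold prN
  rcases lt_or_ge y 1 with h | h
  · rw [hA.disc y h]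
    exact zero_le
  · calc y = y * 1 := (mul_one y).symm
      _ ≤ y * y := mul_le_mul_of_nonneg_left h zero_le
      _ ≤ (x + y) * (x + y) := mul_le_mul' le_add_self le_add_self
      _ ≤ (x + y) * (x + y) + x := le_self_add

/-- components of standard pairs are standard -/
theorem std_prN (hc : Compat M) (hA : Ari LA M) {y : ℕ} {s t : M} (h : (y : M) = prN s t) :
    ∃ s' t' : ℕ, s = s' ∧ t = t' ∧ y = pr s' t' := by
  obtain ⟨s', -, hs⟩ := std_below hc y s (h ▸ le_prN_left s t)
  obtain ⟨t', -, ht⟩ := std_below hc y t (h ▸ le_prN_right hA s t)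
  refine ⟨s', t', hs, ht, ?_⟩
  rw [hs, ht, ← cast_pr] at h
  exact Nat.cast_injective h

/-- nested pairs -/
theorem std_prN3 (hc : Compat M) (hA : Ari LA M) {y c : ℕ} {s t : M} (hc1 : 1 ≤ c)
    (h : (y : M) = prN (c : M) (prN s t)) :
    ∃ s' t' : ℕ, s = s' ∧ t = t' ∧ y = pr c (pr s' t') ∧ s' < y ∧ t' < y := by
  obtain ⟨c', p, h1, h2, h3⟩ := std_prN hc hA h
  obtain ⟨s', t', h4, h5, h6⟩ := std_prN hc hA h2.symm
  have h7 : c = c' := Nat.cast_injective h1
  subst h7
  subst h6
  refine ⟨s', t', h4, h5, h3, ?_, ?_⟩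
  · rw [h3]
    exact lt_of_le_of_lt (le_pr_left s' t') (lt_pr hc1)
  · rw [h3]
    exact lt_of_le_of_lt (le_pr_right s' t') (lt_pr hc1)

end arith

end Pool.Agent.TH541.TN
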